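import Pool.Agent.Helper15.T4.Defs

set_option autoImplicit false

/-!
MP_e0a484_co: statements of the modules. Module `X` proves `ST_X`, with the statements of the modules it
uses as hypotheses.
-/

open Finset MeasureTheory Filter Topology

namespace Pool.Agent.Helper15.T4

/-! ### Group G: the inequalities -/

/-- ROWA: the row inequality for complex rows. -/
def ST_ROWA : Prop := ∀ (x y : ℝ) (a b : Fin 3 → ℝ), ∑ j, a j = 0 → ∑ j, b j = 0 →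
  ∑ j, ((Real.sqrt 2 * x - b j) ^ 2 + (Real.sqrt 2 * y + a j) ^ 2) ^ 2 ≤
    4 / 3 * (3 * x ^ 2 + ∑ j, a j ^ 2 + 8 / 5 * (3 * y ^ 2 + ∑ j, b j ^ 2)) ^ 2 ∧
  (∑ j, ((Real.sqrt 2 * x - b j) ^ 2 + (Real.sqrt 2 * y + a j) ^ 2) ^ 2 =
    4 / 3 * (3 * x ^ 2 + ∑ j, a j ^ 2 + 8 / 5 * (3 * y ^ 2 + ∑ j, b j ^ 2)) ^ 2 →
    y = 0 ∧ a = 0 ∧ b = 0)

/-- ROWB: the row inequality for rows of real vectors. -/
def ST_ROWB : Prop := ∀ (ι : Type) [Fintype ι] (x : Fin 3 → ι → ℝ) (μ : ι → ℝ),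
  (∀ i, 3 * μ i = ∑ j, x j i) →
  ∑ j, (2 * nsq μ + 8 / 5 * nsq (x j - μ)) ^ 2 ≤ 4 / 3 * (∑ j, nsq (x j)) ^ 2 ∧
  (∑ j, (2 * nsq μ + 8 / 5 * nsq (x j - μ)) ^ 2 = 4 / 3 * (∑ j, nsq (x j)) ^ 2 → ∀ j, x j = μ)

/-- HOLD: four rows. -/
def ST_HOLD : Prop := ∀ (m : Fin 4 → Fin 4 → ℝ) (X : Fin 4 → ℝ), (∀ d c, 0 ≤ m d c) →
  (∀ d, 0 ≤ X d) → (∀ d, ∑ c ∈ univ.erase d, m d c ^ 4 ≤ 4 / 3 * X d ^ 2) →
  (∑ c, ∏ d ∈ univ.erase c, m d c) ^ 2 ≤ 2 / 27 * (∑ d, X d) ^ 3 ∧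
  ((∑ c, ∏ d ∈ univ.erase c, m d c) ^ 2 = 2 / 27 * (∑ d, X d) ^ 3 →
    ∀ d, X d = (∑ d, X d) / 4 ∧ ∑ c ∈ univ.erase d, m d c ^ 4 = 4 / 3 * X d ^ 2)

/-- BAN: Banach's theorem on symmetric trilinear forms, with the case of equality. -/
def ST_BAN : Prop := ∀ (V : Type) [NormedAddCommGroup V] [InnerProductSpace ℝ V]
  [FiniteDimensional ℝ V] (T : V →ₗ[ℝ] V →ₗ[ℝ] V →ₗ[ℝ] ℝ) (C : ℝ),
  (∀ x y z, T x y z = T y x z) → (∀ x y z, T x y z = T x z y) → (∀ x, |T x x x| ≤ C * ‖x‖ ^ 3) →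
  (∀ x y z, |T x y z| ≤ C * ‖x‖ * ‖y‖ * ‖z‖) ∧
  ∀ u : V, (∀ x, |T x x x| = C * ‖x‖ ^ 3 → ∃ s : ℝ, x = s • u) → 0 < C →
    ∀ x y z, |T x y z| = C * ‖x‖ * ‖y‖ * ‖z‖ → x ≠ 0 → y ≠ 0 → z ≠ 0 →
      (∃ s : ℝ, x = s • u) ∧ (∃ s : ℝ, y = s • u) ∧ (∃ s : ℝ, z = s • u)

/-- The linear form of a label at a complex vector. -/
noncomputable def Mdl.lc {L ι : Type} [Fintype ι] (m : Mdl L ι) (a : L) (z : ι → ℂ) : ℂ :=
  ∑ i, m.S a i * z i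

/-- The complex trilinear form. -/
noncomputable def Mdl.Tc {L ι : Type} [Fintype L] [Fintype ι] (m : Mdl L ι) (x y z : ι → ℂ) : ℂ :=
  ∑ a, ∑ b, ∑ c, (m.w a b c : ℂ) * m.lc a x * m.lc b y * m.lc c z

/-- The norm of the complexification: imaginary parts are counted with the factor `8 / 5`. -/
noncomputable def ncq {ι : Type} [Fintype ι] (z : ι → ℂ) : ℝ :=
  ∑ i, (z i).re ^ 2 + 8 / 5 * ∑ i, (z i).im ^ 2

/-- IA (from ROWA, HOLD). -/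
def ST_IA : Prop := ∀ z : L1 → ℂ, ‖m1.Tc z z z‖ ^ 2 ≤ 8 / 3 * ncq z ^ 3 ∧
  (‖m1.Tc z z z‖ ^ 2 = 8 / 3 * ncq z ^ 3 → ∃ s : ℝ, z = fun _ => (s : ℂ))

/-- IT (from IA, BAN). -/
def ST_IT : Prop := ∀ x y z : L1 → ℂ,
  ‖m1.Tc x y z‖ ^ 2 ≤ 8 / 3 * (ncq x * ncq y * ncq z) ∧
  (‖m1.Tc x y z‖ ^ 2 = 8 / 3 * (ncq x * ncq y * ncq z) → ncq x ≠ 0 → ncq y ≠ 0 → ncq z ≠ 0 →
    (∃ s : ℝ, x = fun _ => (s : ℂ)) ∧ (∃ s : ℝ, y = fun _ => (s : ℂ)) ∧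
      (∃ s : ℝ, z = fun _ => (s : ℂ)))

/-- IB (from IT, ROWB, HOLD, and IA for the last case of equality). -/
def ST_IB : Prop := ∀ x : L1 × L1 → ℝ, ‖m2.P x‖ ^ 2 ≤ (8 / 3) ^ 2 * nsq x ^ 3 ∧
  (‖m2.P x‖ ^ 2 = (8 / 3) ^ 2 * nsq x ^ 3 → ∃ s : ℝ, x = s • u2)

/-- POS1: the Hessian at the peak of the first model. -/
def ST_POS1 : Prop := ∃ c : ℝ, 0 < c ∧ ∀ h : L1 → ℝ, c * nsq h ≤ (QT m1.T u1 q1 h).re

/-- POS2: the Hessian at the peak of the second model. -/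
def ST_POS2 : Prop := ∃ c : ℝ, 0 < c ∧ ∀ h : L1 × L1 → ℝ, c * nsq h ≤ (QT m2.T u2 (8 / 3) h).re

/-- MPK: a model with a unique peak satisfies the hypotheses of the Laplace method. -/
def ST_MPK : Prop := ∀ (L ι : Type) [Fintype L] [Fintype ι] (m : Mdl L ι) (u : ι → ℝ) (q : ℝ),
  m.Symm → nsq u = 1 → 0 < q → (∀ h, m.T u u h = (q : ℂ) * ((∑ i, u i * h i : ℝ) : ℂ)) →
  (∀ x, ‖m.P x‖ ^ 2 ≤ q ^ 2 * nsq x ^ 3) →
  (∀ x, ‖m.P x‖ ^ 2 = q ^ 2 * nsq x ^ 3 → ∃ s : ℝ, x = s • u) →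
  (∃ c : ℝ, 0 < c ∧ ∀ h, c * nsq h ≤ (QT m.T u q h).re) → Peak m.P u q (QT m.T u q)

/-- PK0 (from MPK). -/
def ST_PK0 : Prop := Peak m0.P (fun _ => 1) 1 (QT m0.T (fun _ => 1) 1)

/-- PK1 (from MPK, IA, POS1). -/
def ST_PK1 : Prop := Peak m1.P u1 q1 (QT m1.T u1 q1)

/-- PK2 (from MPK, IB, POS2). -/
def ST_PK2 : Prop := Peak m2.P u2 (8 / 3) (QT m2.T u2 (8 / 3))

/-! ### Group D: determinants and traces -/

/-- The eigenvalues of the transfer matrix: `1` once, `nu` and its conjugate three times, `1 / 4` five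
times. -/
noncomputable def ev (a : L1) : ℂ :=
  if a = (0, 0) then 1 else if a.2 = 0 then nu else if a.2 = 1 ∧ a.1 ≠ 0 then starRingEnd ℂ nu
  else 1 / 4

/-- DIAG: diagonalisation of the transfer matrix. -/
def ST_DIAG : Prop := ∃ T T' : Matrix L1 L1 ℂ, T * T' = 1 ∧ T' * T = 1 ∧
  T' * B1 * T = Matrix.diagonal ev ∧
  T' * (Matrix.of fun _ _ => (1 / 12 : ℂ)) * T = Matrix.diagonal (fun a => if a = (0, 0) then 1 else 0)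

/-- TAU (from DIAG). -/
def ST_TAU : Prop := ∀ k : ℕ, (B1 ^ (k + 1)).trace = ((tau k : ℝ) : ℂ)

/-- RU: the transfer matrix is the vertex matrix at the peak times the compatibility matrix. -/
def ST_RU : Prop := m1.R u1 * m1.AM = (q1 : ℂ) • B1

/-- The matrix of the quadratic form `QT`. -/
noncomputable def HM {ι : Type} [Fintype ι] [DecidableEq ι] (T : (ι → ℝ) → (ι → ℝ) → (ι → ℝ) → ℂ)
    (u : ι → ℝ) (q : ℝ) : Matrix ι ι ℂ :=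
  Matrix.of fun i j => (if i = j then 3 else 0) - 6 * T u (Pi.single i 1) (Pi.single j 1) / (q : ℂ) +
    9 * ((u i * u j : ℝ) : ℂ)

/-- DET1 (from DIAG, RU). -/
def ST_DET1 : Prop := ‖(HM m1.T u1 q1).det‖ = 6 * 3 ^ 11 * (343 / 256)

/-- DET2 (from DIAG, RU). -/
def ST_DET2 : Prop := ‖(HM m2.T u2 (8 / 3)).det‖ = 6 * 3 ^ 143 * (343 / 256) ^ 2 * Pi2

/-- GAUSS: modulus of a complex Gaussian integral. -/
def ST_GAUSS : Prop := ∀ (ι : Type) [Fintype ι] [DecidableEq ι] (M : Matrix ι ι ℂ), M.IsSymm →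
  (∃ c : ℝ, 0 < c ∧ ∀ x : ι → ℝ, c * nsq x ≤ (∑ i, ∑ j, (x i : ℂ) * M i j * (x j : ℂ)).re) →
  ‖∫ x : ι → ℝ, Complex.exp (-(∑ i, ∑ j, (x i : ℂ) * M i j * (x j : ℂ)) / 2)‖ ^ 2 =
    (2 * Real.pi) ^ (Fintype.card ι) / ‖M.det‖

/-- The Gaussian integral of the Hessian. -/
noncomputable def GG {ι : Type} [Fintype ι] (Q : (ι → ℝ) → ℂ) : ℂ :=
  ∫ x : ι → ℝ, Complex.exp (-(Q x) / 2)

/-- GSS (from GAUSS, DET1, DET2, PK0, PK1, PK2; only the positivity of the Hessians is used). -/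
def ST_GSS : Prop :=
  ‖GG (QT m0.T (fun _ => 1) 1)‖ ^ 2 = 2 * Real.pi / 6 ∧
  ‖GG (QT m1.T u1 q1)‖ ^ 2 = (2 * Real.pi) ^ 12 / (6 * 3 ^ 11 * (343 / 256)) ∧
  ‖GG (QT m2.T u2 (8 / 3))‖ ^ 2 = (2 * Real.pi) ^ 144 / (6 * 3 ^ 143 * (343 / 256) ^ 2 * Pi2)

/-- SER: the constant of the second moment as a sum over the cycles. -/
def ST_SER : Prop := Summable (fun k : ℕ => lam k * (tau k - 1) ^ 2) ∧
  Real.exp (∑' k : ℕ, lam k * (tau k - 1) ^ 2) = Real.sqrt (1 / Pi2) ∧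
  (∀ k : ℕ, 0 ≤ tau k) ∧ ∀ k : ℕ, 1 ≤ k → 1 / 2 ≤ tau k

/-! ### Group L: the Laplace method -/

/-- The normalising factor. -/
noncomputable def NF (q : ℝ) (N : ℕ) : ℝ := (6 * (N : ℝ)) ^ (3 * N) * (q ^ 2 * Real.exp (-3)) ^ N

/-- LAP: the Laplace method near a peak, in rescaled variables. `f y = P y exp (- 3 |y|^2 / 2)`; the
integral over the half space `⟨u, y⟩ > 0`. -/
def ST_LAP : Prop := ∀ (ι : Type) [Fintype ι] (P : (ι → ℝ) → ℂ) (u : ι → ℝ) (q : ℝ)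
  (Q : (ι → ℝ) → ℂ), Peak P u q Q → ∀ (v : ℕ) (h : (ι → ℝ) → ℂ), Continuous h →
  (∃ C : ℝ, ∀ y, ‖h y‖ ≤ C) →
  Tendsto (fun n : ℕ => (((n : ℝ) ^ ((Fintype.card ι : ℝ) / 2) / (q * Real.exp (-(3 / 2))) ^ n : ℝ) : ℂ) *
    ∫ y in {y : ι → ℝ | 0 < ∑ i, u i * y i},
      (P y * ((Real.exp (-(3 / 2) * nsq y) : ℝ) : ℂ)) ^ (n - v) * h y) atTop
    (𝓝 (h u / ((q * Real.exp (-(3 / 2)) : ℝ) : ℂ) ^ v * GG Q))

/-- LAPB: bound for the absolute values. -/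
def ST_LAPB : Prop := ∀ (ι : Type) [Fintype ι] (P : (ι → ℝ) → ℂ) (u : ι → ℝ) (q : ℝ)
  (Q : (ι → ℝ) → ℂ), Peak P u q Q → ∀ v : ℕ, ∃ C : ℝ, ∀ᶠ n : ℕ in atTop,
  (n : ℝ) ^ ((Fintype.card ι : ℝ) / 2) / (q * Real.exp (-(3 / 2))) ^ n *
    ∫ y : ι → ℝ, (‖P y‖ * Real.exp (-(3 / 2) * nsq y)) ^ (n - v) ≤ C

/-- ASY (from LAP): Gaussian moments of a peaked polynomial. -/
def ST_ASY : Prop := ∀ (ι : Type) [Fintype ι] (P : (ι → ℝ) → ℂ) (u : ι → ℝ) (q : ℝ)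
  (Q : (ι → ℝ) → ℂ), Peak P u q Q → ∀ (v f : ℕ) (Φ : (ι → ℝ) → ℂ), 2 * f ≤ 3 * v → Continuous Φ →
  (∀ (s : ℝ) (x : ι → ℝ), Φ (s • x) = (s : ℂ) ^ (3 * v - 2 * f) * Φ x) →
  Tendsto (fun N : ℕ => GI (fun x => P x ^ (2 * N - v) * Φ x) * ((6 * (N : ℝ)) ^ f : ℝ) /
    ((NF q N : ℝ) : ℂ)) atTop
    (𝓝 (2 * (((3 / (2 * Real.pi)) ^ ((Fintype.card ι : ℝ) / 2) : ℝ) : ℂ) * GG Q * Φ u / (q : ℂ) ^ v))

/-- ASYB (from LAPB): bound for the absolute Gaussian moments. -/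
def ST_ASYB : Prop := ∀ (ι : Type) [Fintype ι] (P : (ι → ℝ) → ℂ) (u : ι → ℝ) (q : ℝ)
  (Q : (ι → ℝ) → ℂ), Peak P u q Q → ∀ v f : ℕ, 2 * f ≤ 3 * v → ∃ C : ℝ, ∀ᶠ N : ℕ in atTop,
  (∫ x : ι → ℝ, ‖P x‖ ^ (2 * N - v) * Real.sqrt (nsq x) ^ (3 * v - 2 * f) *
    Real.exp (-(nsq x) / 2)) * (6 * (N : ℝ)) ^ f ≤ C * NF q N

/-! ### Group W: pairings and Gaussian integrals -/

/-- REC: recursion for the perfect matchings. -/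
def ST_REC : Prop := ∀ (H : Type) [Fintype H] [DecidableEq H] (s : Finset H) (h : H) (φ : Sym2 H → ℂ),
  h ∈ s → ∑ M ∈ PM s, ∏ e ∈ M, φ e =
    ∑ h' ∈ s.erase h, φ s(h, h') * ∑ M ∈ PM ((s.erase h).erase h'), ∏ e ∈ M, φ e

/-- EXTM: perfect matchings that contain a partial matching. -/
def ST_EXTM : Prop := ∀ (H : Type) [Fintype H] [DecidableEq H] (F : Finset (Sym2 H))
  (φ : Sym2 H → ℂ), IsMat F →
  ∑ M ∈ (PM (univ : Finset H)).filter (fun M => F ⊆ M), ∏ e ∈ M, φ e =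
    (∏ e ∈ F, φ e) * ∑ M ∈ PM (cov F)ᶜ, ∏ e ∈ M, φ e

/-- CARD (from REC): the number of perfect matchings. -/
def ST_CARD : Prop := ∀ (H : Type) [Fintype H] [DecidableEq H] (s : Finset H) (k : ℕ),
  s.card = 2 * k → (PM s).card = ∏ i ∈ range k, (2 * i + 1)

/-- IBP: Gaussian integration by parts for products of linear forms. -/
def ST_IBP : Prop := ∀ (H ι : Type) [Fintype ι] [DecidableEq H] (s : Finset H) (ℓ : H → ι → ℂ)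
  (k : ι → ℂ),
  GI (fun x => (∑ i, k i * (x i : ℂ)) * ∏ h ∈ s, ∑ i, ℓ h i * (x i : ℂ)) =
    ∑ h' ∈ s, (∑ i, k i * ℓ h' i) * GI (fun x => ∏ h ∈ s.erase h', ∑ i, ℓ h i * (x i : ℂ))

/-- WICK (from REC, IBP): Wick's formula. -/
def ST_WICK : Prop := ∀ (H ι : Type) [Fintype H] [Fintype ι] [DecidableEq H] (s : Finset H)
  (ℓ : H → ι → ℂ),
  ∑ M ∈ PM s, ∏ e ∈ M, pairC ℓ e = GI (fun x => ∏ h ∈ s, ∑ i, ℓ h i * (x i : ℂ))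

/-- SUMX (from WICK, EXTM). -/
def ST_SUMX : Prop := ∀ (L ι : Type) [Fintype L] [Fintype ι] (m : Mdl L ι) (n : ℕ)
  (F : Finset (Sym2 (HE n))), IsMat F →
  ∑ M ∈ (PM (univ : Finset (HE n))).filter (fun M => F ⊆ M), m.X M = GI (m.Psi F)

/-- PSI0: the integrand for `F = ∅`. -/
def ST_PSI0 : Prop := ∀ (L ι : Type) [Fintype L] [Fintype ι] (m : Mdl L ι) (n : ℕ) (x : ι → ℝ),
  m.Psi (∅ : Finset (Sym2 (HE n))) x = m.P x ^ n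

/-- PSIB: bound for the integrand. -/
def ST_PSIB : Prop := ∀ (L ι : Type) [Fintype L] [Fintype ι] (m : Mdl L ι), ∃ K : ℝ, 1 ≤ K ∧
  ∀ (n : ℕ) (F : Finset (Sym2 (HE n))) (x : ι → ℝ), IsMat F →
    ‖m.Psi F x‖ ≤ ‖m.P x‖ ^ (n - (tv F).card) * K ^ ((tv F).card) *
      Real.sqrt (nsq x) ^ (3 * (tv F).card - 2 * F.card)

/-- PSIC (from STR): the integrand for a family of disjoint cycles. -/
def ST_PSIC : Prop := ∀ (L ι : Type) [Fintype L] [Fintype ι] [DecidableEq L] (m : Mdl L ι), m.Symm →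
  ∀ (n : ℕ) (I : Type) [Fintype I] (κ : I → ℕ) (c : (i : I) → CycD n (κ i)) (x : ι → ℝ), DisjFam c →
    m.Psi (EU c) x = m.P x ^ (n - ∑ i, (κ i + 1)) * ∏ i, ((m.R x * m.AM) ^ (κ i + 1)).trace

/-- XC: the total weights of the three models are numbers of colourings. -/
def ST_XC : Prop := ∀ (n : ℕ) (M : Finset (Sym2 (HE n))), m0.X M = 1 ∧ m1.X M = (Xc M : ℂ) ∧
  m2.X M = (Xc M : ℂ) ^ 2

/-! ### Group C: cycles -/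

/-- STR: structure of one cycle. -/
def ST_STR : Prop := ∀ (n k : ℕ) (c : CycD n k), Valid c →
  IsMat (E c) ∧ (E c).card = k + 1 ∧ tv (E c) = vs c ∧ (vs c).card = k + 1 ∧
  ∀ h : HE n, h ∈ cov (E c) ↔ ∃ i, h = ((c i).1, (c i).2.1) ∨ h = ((c i).1, (c i).2.2)

/-- STRU (from STR): structure of a family of disjoint cycles. -/
def ST_STRU : Prop := ∀ (n : ℕ) (I : Type) [Fintype I] (κ : I → ℕ) (c : (i : I) → CycD n (κ i)),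
  DisjFam c → IsMat (EU c) ∧ (EU c).card = ∑ i, (κ i + 1) ∧
  (tv (EU c)).card = ∑ i, (κ i + 1) ∧ (∀ v, v ∈ tv (EU c) ↔ ∃ i, v ∈ vs (c i)) ∧
  ∀ h : HE n, h ∈ cov (EU c) ↔ ∃ i, h ∈ cov (E (c i))

/-- CNT: number of families of disjoint cycles. -/
def ST_CNT : Prop := ∀ (n : ℕ) (I : Type) [Fintype I] [DecidableEq I] (κ : I → ℕ),
  {c : (i : I) → CycD n (κ i) | DisjFam c}.ncard =
    n.descFactorial (∑ i, (κ i + 1)) * 6 ^ (∑ i, (κ i + 1))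

/-- FIB: a cycle has `2 (k + 1)` data. -/
def ST_FIB : Prop := ∀ (n k : ℕ) (C : Finset (Sym2 (HE n))), C ∈ Cyc n k →
  {c : CycD n k | Valid c ∧ E c = C}.ncard = 2 * (k + 1)

/-- EXT (from STR, STRU): a further cycle that meets a family of disjoint cycles has more new pairs
than new vertices. -/
def ST_EXT : Prop := ∀ (n : ℕ) (I : Type) [Fintype I] (κ : I → ℕ) (c : (i : I) → CycD n (κ i))
  (k : ℕ) (c' : CycD n k), DisjFam c → Valid c' → (∀ i, E c' ≠ E (c i)) →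
  IsMat (EU c ∪ E c') → ¬ Disjoint (vs c') (tv (EU c)) →
  (tv (EU c) ∪ vs c').card + 1 ≤ (EU c ∪ E c').card

/-- CNE: number of the cycles with a given number of new vertices. -/
def ST_CNE : Prop := ∀ (n k v : ℕ) (U : Finset (Fin n)),
  {c : CycD n k | Valid c ∧ (U ∪ vs c).card = U.card + v}.ncard ≤
    (18 * (U.card + 1)) ^ (k + 1) * n ^ v

/-- ERR (from STR, STRU, CNT, EXT, CNE): intersecting cycles are negligible. -/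
def ST_ERR : Prop := ∀ (W : (N : ℕ) → Finset (Sym2 (HE (2 * N))) → ℝ), (∀ N M, 0 ≤ W N M) →
  (∀ f : ℕ, ∃ C : ℝ, ∀ᶠ N in atTop, ∀ F : Finset (Sym2 (HE (2 * N))), IsMat F → F.card = f →
    mass (W N) F ≤ C / (2 * (N : ℝ)) ^ f) →
  ∀ (I : Type) [Fintype I] [DecidableEq I] (κ : I → ℕ) (k : ℕ), ∃ C : ℝ, ∀ᶠ N : ℕ in atTop,
    ∑ M ∈ PM (univ : Finset (HE (2 * N))), W N M *
      ({p : ((i : I) → CycD (2 * N) (κ i)) × CycD (2 * N) k | DisjFam p.1 ∧ Valid p.2 ∧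
        (∀ i, E p.2 ≠ E (p.1 i)) ∧ ¬ Disjoint (vs p.2) (tv (EU p.1)) ∧ EU p.1 ⊆ M ∧
        E p.2 ⊆ M}.ncard : ℝ) ≤ C / (N : ℝ)

/-- FM (from STR, STRU, CNT, FIB, ERR): factorial moments. -/
def ST_FM : Prop := ∀ (W : (N : ℕ) → Finset (Sym2 (HE (2 * N))) → ℝ) (τ : ℕ → ℝ), Good W τ →
  ∀ (m : ℕ) (j : Fin m → ℕ), Tendsto (fun N : ℕ => ∑ M ∈ PM (univ : Finset (HE (2 * N))),
    W N M * ((∏ k : Fin m, (Zs m k M).descFactorial (j k) : ℕ) : ℝ)) atTop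
    (𝓝 (∏ k : Fin m, (lam k * τ k) ^ (j k)))

/-- MOM: the method of moments for Poisson vectors. -/
def ST_MOM : Prop := ∀ (A : ℕ → Type) (S : (N : ℕ) → Finset (A N)) (W : (N : ℕ) → A N → ℝ) (m : ℕ)
  (Z : (N : ℕ) → A N → Fin m → ℕ) (a : Fin m → ℝ), (∀ N x, 0 ≤ W N x) → (∀ k, 0 ≤ a k) →
  (∀ j : Fin m → ℕ, Tendsto (fun N => ∑ x ∈ S N, W N x *
    ((∏ k, (Z N x k).descFactorial (j k) : ℕ) : ℝ)) atTop (𝓝 (∏ k, a k ^ (j k)))) →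
  ∀ z : Fin m → ℕ, Tendsto (fun N => ∑ x ∈ (S N).filter (fun x => Z N x = z), W N x) atTop
    (𝓝 (∏ k, po (a k) (z k)))

open Classical in
/-- POI (from FM, MOM). -/
def ST_POI : Prop := ∀ (W : (N : ℕ) → Finset (Sym2 (HE (2 * N))) → ℝ) (τ : ℕ → ℝ), Good W τ →
  (∀ k, 0 ≤ τ k) → ∀ (m : ℕ) (z : Fin m → ℕ), Tendsto (fun N : ℕ =>
    ∑ M ∈ (PM (univ : Finset (HE (2 * N)))).filter (fun M => (fun k : Fin m => Zs m k M) = z), W N M)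
    atTop (𝓝 (∏ k : Fin m, po (lam k * τ k) (z k)))

/-- UNI (from CARD, EXTM, STRU): the uniform distribution. -/
def ST_UNI : Prop := Good (fun N _ => 1 / ((PM (univ : Finset (HE (2 * N)))).card : ℝ)) (fun _ => 1)

/-- The planted distribution. -/
noncomputable def WX (N : ℕ) (M : Finset (Sym2 (HE (2 * N)))) : ℝ :=
  (Xc M : ℝ) / ∑ M' ∈ PM (univ : Finset (HE (2 * N))), (Xc M' : ℝ)

/-- S1A (from SUMX, PSI0, XC, ASY, PK1, GSS): the first moment. -/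
def ST_S1A : Prop := ∃ c : ℂ, c ≠ 0 ∧ Tendsto (fun N : ℕ =>
  (∑ M ∈ PM (univ : Finset (HE (2 * N))), (Xc M : ℂ)) / ((NF q1 N : ℝ) : ℂ)) atTop (𝓝 c) ∧
  c = 2 * (((3 / (2 * Real.pi)) ^ ((Fintype.card L1 : ℝ) / 2) : ℝ) : ℂ) * GG (QT m1.T u1 q1)

/-- PLC (from SUMX, PSIC, XC, STRU, ASY, PK1, S1A, TAU, RU): cycles of the planted distribution. -/
def ST_PLC : Prop := ∀ (I : Type) [Fintype I] [DecidableEq I] (κ : I → ℕ), ∃ ρ : ℕ → ℝ,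
  Tendsto (fun N : ℕ => ρ N * (2 * (N : ℝ)) ^ (∑ i, (κ i + 1))) atTop
    (𝓝 (∏ i, tau (κ i) / 3 ^ (κ i + 1))) ∧
  ∀ᶠ N in atTop, ∀ c : (i : I) → CycD (2 * N) (κ i), DisjFam c → mass (WX N) (EU c) = ρ N

/-- PLB (from SUMX, PSIB, XC, ASYB, PK1, S1A). -/
def ST_PLB : Prop := ∀ f : ℕ, ∃ C : ℝ, ∀ᶠ N in atTop, ∀ F : Finset (Sym2 (HE (2 * N))), IsMat F →
  F.card = f → mass (WX N) F ≤ C / (2 * (N : ℝ)) ^ f

/-- PLA (from PLC, PLB, S1A). -/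
def ST_PLA : Prop := Good WX tau

/-- RAT (from SUMX, PSI0, XC, ASY, PK0, PK1, PK2, GSS): the second moment. -/
def ST_RAT : Prop := Tendsto (fun N : ℕ => (∑ M ∈ PM (univ : Finset (HE (2 * N))), (Xc M : ℝ) ^ 2) *
  ((PM (univ : Finset (HE (2 * N)))).card : ℝ) /
    (∑ M ∈ PM (univ : Finset (HE (2 * N))), (Xc M : ℝ)) ^ 2) atTop (𝓝 (Real.sqrt (1 / Pi2)))

/-! ### Group T: graphs -/

open Classical in
/-- FIBG: a cubic graph has `6 ^ n` pairings. -/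
def ST_FIBG : Prop := ∀ (n : ℕ) (G : SimpleGraph (Fin n)),
  (∀ v, Set.ncard {w | G.Adj v w} = 3) →
  ((PM (univ : Finset (HE n))).filter (fun M => Gr M = G)).card = 6 ^ n

/-- Pairings without short cycles. -/
def NoShort {n : ℕ} (g : ℕ) (M : Finset (Sym2 (HE n))) : Prop :=
  ∀ k, k + 1 < g → ∀ c : CycD n k, Valid c → ¬ E c ⊆ M

/-- GIR1. -/
def ST_GIR1 : Prop := ∀ (n g : ℕ) (M : Finset (Sym2 (HE n))), M ∈ PM (univ : Finset (HE n)) →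
  Cubic g (Gr M) → NoShort g M

/-- GIR2. -/
def ST_GIR2 : Prop := ∀ (n g : ℕ) (M : Finset (Sym2 (HE n))), 3 ≤ g →
  M ∈ PM (univ : Finset (HE n)) → NoShort g M → Cubic g (Gr M)

/-- TY1. -/
def ST_TY1 : Prop := ∀ (n g : ℕ) (M : Finset (Sym2 (HE n))), M ∈ PM (univ : Finset (HE n)) →
  Cubic g (Gr M) → Xc M ≠ 0 → Type1 (Gr M)

open Classical in
/-- POSG (from UNI, POI, ERR): a positive proportion of the pairings has no short cycle. -/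
def ST_POSG : Prop := ∀ g : ℕ, ∃ c : ℝ, 0 < c ∧ ∀ᶠ N : ℕ in atTop,
  c * ((PM (univ : Finset (HE (2 * N)))).card : ℝ) ≤
    (((PM (univ : Finset (HE (2 * N)))).filter (fun M => NoShort g M)).card : ℝ)

/-! ### Group F: the end -/

open Classical in
/-- SSC: the small subgraph conditioning method. -/
def ST_SSC : Prop := ∀ (A : ℕ → Type) (S G : (N : ℕ) → Finset (A N)) (X : (N : ℕ) → A N → ℕ)
  (Z : (N m : ℕ) → A N → Fin m → ℕ) (l t : ℕ → ℝ) (g : ℕ),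
  (∀ k, 0 < l k) → (∀ k, 0 ≤ t k) → (∀ k, g ≤ k → 1 / 2 ≤ t k) →
  Summable (fun k : ℕ => l k * (t k - 1) ^ 2) →
  (∀ᶠ N in atTop, 0 < (S N).card) → (∀ᶠ N in atTop, 0 < ∑ x ∈ S N, (X N x : ℝ)) →
  (∀ (m : ℕ) (z : Fin m → ℕ), Tendsto (fun N => (((S N).filter (fun x => Z N m x = z)).card : ℝ) /
    ((S N).card : ℝ)) atTop (𝓝 (∏ k : Fin m, po (l k) (z k)))) →
  (∀ (m : ℕ) (z : Fin m → ℕ), Tendsto (fun N => (∑ x ∈ (S N).filter (fun x => Z N m x = z),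
    (X N x : ℝ)) / ∑ x ∈ S N, (X N x : ℝ)) atTop (𝓝 (∏ k : Fin m, po (l k * t k) (z k)))) →
  Tendsto (fun N => (∑ x ∈ S N, (X N x : ℝ) ^ 2) * ((S N).card : ℝ) /
    (∑ x ∈ S N, (X N x : ℝ)) ^ 2) atTop (𝓝 (Real.exp (∑' k : ℕ, l k * (t k - 1) ^ 2))) →
  (∀ N, G N ⊆ S N) → (∀ N m, ∀ x ∈ G N, ∀ k : Fin m, (k : ℕ) < g → Z N m x k = 0) →
  Tendsto (fun N => (((G N).filter (fun x => X N x = 0)).card : ℝ) / ((S N).card : ℝ)) atTop (𝓝 0)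

/-- MAIN (from all): almost all cubic graphs of girth at least `g` are Type 1. -/
def ST_MAIN : Prop := ∀ g : ℕ, 3 ≤ g → Tendsto (fun N : ℕ =>
  (Set.ncard {G : SimpleGraph (Fin (2 * N)) | Cubic g G ∧ Type1 G} : ℝ) /
    (Set.ncard {G : SimpleGraph (Fin (2 * N)) | Cubic g G} : ℝ)) atTop (𝓝 1)

end Pool.Agent.Helper15.T4
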