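import Pool.Agent.Helper15.T4.Stmts

set_option autoImplicit false

/-!
T4, module PSI0: the integrand for the empty partial matching.
-/

open Finset

namespace Pool.Agent.Helper15.T4

theorem PSI0 : ST_PSI0 := by
  classical
  intro L ι _ _ m n x
  have hc : (cov (∅ : Finset (Sym2 (HE n))))ᶜ = (univ : Finset (HE n)) := by
    ext h
    simp [cov]
  unfold Mdl.Psi
  rw [hc]
  -- curry the labelings
  let F : (Fin 3 → L) → ℂ := fun t => (m.w (t 0) (t 1) (t 2) : ℂ) * ∏ j : Fin 3, m.l (t j) x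
  have h1 : ∀ σ : HE n → L, (∏ v, (m.w (σ (v, 0)) (σ (v, 1)) (σ (v, 2)) : ℂ)) *
      (∏ e ∈ (∅ : Finset (Sym2 (HE n))), pairC m.S (e.map σ)) * ∏ h ∈ (univ : Finset (HE n)), m.l (σ h) x
      = ∏ v : Fin n, F (fun j => σ (v, j)) := by
    intro σ
    rw [Finset.prod_empty, mul_one, Fintype.prod_prod_type, ← Finset.prod_mul_distrib]
  have h1' : ∑ σ : HE n → L, (∏ v, (m.w (σ (v, 0)) (σ (v, 1)) (σ (v, 2)) : ℂ)) *
      (∏ e ∈ (∅ : Finset (Sym2 (HE n))), pairC m.S (e.map σ)) * ∏ h ∈ (univ : Finset (HE n)), m.l (σ h) x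
      = ∑ σ : HE n → L, ∏ v : Fin n, F (fun j => σ (v, j)) :=
    Finset.sum_congr rfl (fun σ _ => h1 σ)
  have h2 : ∑ σ : HE n → L, ∏ v : Fin n, F (fun j => σ (v, j)) =
      ∑ τ : Fin n → Fin 3 → L, ∏ v : Fin n, F (τ v) := by
    refine Fintype.sum_equiv (Equiv.curry (Fin n) (Fin 3) L) _ _ ?_
    intro σ
    rfl
  have h3 : ∑ τ : Fin n → Fin 3 → L, ∏ v : Fin n, F (τ v) = (∑ t : Fin 3 → L, F t) ^ n := by
    have := (Finset.prod_univ_sum (fun _ : Fin n => (univ : Finset (Fin 3 → L))) (fun _ t => F t)).symm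
    rw [Finset.prod_const, Finset.card_univ, Fintype.card_fin] at this
    rw [← this]
    apply Finset.sum_congr _ (fun _ _ => rfl)
    ext τ
    simp
  have h4 : ∑ t : Fin 3 → L, F t = m.P x := by
    have e3 : ∑ t : Fin 3 → L, F t = ∑ a : L, ∑ b : L, ∑ c : L, F ![a, b, c] := by
      rw [← (Fin.consEquiv (fun _ : Fin 3 => L)).sum_comp, Fintype.sum_prod_type]
      apply Finset.sum_congr rfl
      intro a _
      rw [← (Fin.consEquiv (fun _ : Fin 2 => L)).sum_comp, Fintype.sum_prod_type]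
      apply Finset.sum_congr rfl
      intro b _
      rw [← (Fin.consEquiv (fun _ : Fin 1 => L)).sum_comp, Fintype.sum_prod_type]
      apply Finset.sum_congr rfl
      intro c _
      rw [Fintype.sum_unique]
      congr 1
    rw [e3]
    unfold Mdl.P Mdl.T
    apply Finset.sum_congr rfl
    intro a _
    apply Finset.sum_congr rfl
    intro b _
    apply Finset.sum_congr rfl
    intro c _
    have hF : F ![a, b, c] = (m.w a b c : ℂ) * (m.l a x * m.l b x * m.l c x) := by
      simp only [F, Fin.prod_univ_three]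
      rfl
    rw [hF]
    ring
  rw [← h4, ← h3, ← h2]
  exact h1'

end Pool.Agent.Helper15.T4
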