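import Pool.Agent.Helper15.T4.Stmts

set_option autoImplicit false

/-!
T4, module REC: recursion for the perfect matchings of a finite set.
-/

open Finset

namespace Pool.Agent.Helper15.T4

theorem mem_PM {H : Type} [Fintype H] {s : Finset H} {M : Finset (Sym2 H)} :
    M ∈ PM s ↔ IsPM s M := by
  classical
  simp [PM]

theorem pm_unique {H : Type} {s : Finset H} {M : Finset (Sym2 H)} (hM : IsPM s M) {h : H}
    {e e' : Sym2 H} (he : e ∈ M) (he' : e' ∈ M) (hh : h ∈ e) (hh' : h ∈ e') : e = e' := by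
  have hs : h ∈ s := hM.2.1 e he h hh
  obtain ⟨e0, _, hu⟩ := hM.2.2 h hs
  rw [hu e ⟨he, hh⟩, hu e' ⟨he', hh'⟩]

theorem pm_erase {H : Type} [DecidableEq H] {s : Finset H} {M : Finset (Sym2 H)} {h h' : H}
    (hM : IsPM s M) (he : s(h, h') ∈ M) :
    IsPM ((s.erase h).erase h') (M.erase s(h, h')) := by
  refine ⟨fun e hE => hM.1 e (Finset.mem_of_mem_erase hE), ?_, ?_⟩
  · intro e hE x hx
    have hE' := Finset.mem_of_mem_erase hE
    have hne := Finset.ne_of_mem_erase hE
    have hxs := hM.2.1 e hE' x hx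
    rw [Finset.mem_erase, Finset.mem_erase]
    refine ⟨?_, ?_, hxs⟩
    · rintro rfl
      exact hne (pm_unique hM hE' he hx (Sym2.mem_mk_right _ _))
    · rintro rfl
      exact hne (pm_unique hM hE' he hx (Sym2.mem_mk_left _ _))
  · intro x hx
    rw [Finset.mem_erase, Finset.mem_erase] at hx
    obtain ⟨e, ⟨heM, hxe⟩, hu⟩ := hM.2.2 x hx.2.2
    refine ⟨e, ⟨Finset.mem_erase.mpr ⟨?_, heM⟩, hxe⟩, ?_⟩
    · rintro rfl
      rcases Sym2.mem_iff.mp hxe with h1 | h1
      · exact hx.2.1 h1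
      · exact hx.1 h1
    · intro e' he'
      exact hu e' ⟨Finset.mem_of_mem_erase he'.1, he'.2⟩

theorem pm_insert {H : Type} [DecidableEq H] {s : Finset H} {M : Finset (Sym2 H)} {h h' : H}
    (hh : h ∈ s) (hh' : h' ∈ s) (hne : h ≠ h') (hM : IsPM ((s.erase h).erase h') M) :
    IsPM s (insert s(h, h') M) ∧ s(h, h') ∉ M := by
  have hnot : ∀ e ∈ M, h ∉ e ∧ h' ∉ e := by
    intro e he
    constructor
    · intro hx
      have := hM.2.1 e he h hx
      simp at this
    · intro hx
      have := hM.2.1 e he h' hx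
      simp at this
  refine ⟨⟨?_, ?_, ?_⟩, fun hE => (hnot _ hE).1 (Sym2.mem_mk_left _ _)⟩
  · intro e he
    rcases Finset.mem_insert.mp he with rfl | he
    · simpa [Sym2.mk_isDiag_iff] using hne
    · exact hM.1 e he
  · intro e he x hx
    rcases Finset.mem_insert.mp he with rfl | he
    · rcases Sym2.mem_iff.mp hx with rfl | rfl
      · exact hh
      · exact hh'
    · have := hM.2.1 e he x hx
      exact Finset.mem_of_mem_erase (Finset.mem_of_mem_erase this)
  · intro x hx
    by_cases hxh : x = h ∨ x = h'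
    · refine ⟨s(h, h'), ⟨Finset.mem_insert_self _ _, Sym2.mem_iff.mpr hxh⟩, ?_⟩
      rintro e ⟨he, hxe⟩
      rcases Finset.mem_insert.mp he with h1 | h1
      · exact h1
      · rcases hxh with h2 | h2
        · rw [h2] at hxe
          exact absurd hxe (hnot e h1).1
        · rw [h2] at hxe
          exact absurd hxe (hnot e h1).2
    · push Not at hxh
      have hx' : x ∈ (s.erase h).erase h' := by
        rw [Finset.mem_erase, Finset.mem_erase]
        exact ⟨hxh.2, hxh.1, hx⟩
      obtain ⟨e, ⟨heM, hxe⟩, hu⟩ := hM.2.2 x hx'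
      refine ⟨e, ⟨Finset.mem_insert_of_mem heM, hxe⟩, ?_⟩
      rintro e' ⟨he', hxe'⟩
      rcases Finset.mem_insert.mp he' with rfl | he'
      · rcases Sym2.mem_iff.mp hxe' with h1 | h1
        · exact absurd h1 hxh.1
        · exact absurd h1 hxh.2
      · exact hu e' ⟨he', hxe'⟩

theorem REC : ST_REC := by
  classical
  intro H _ _ s h φ hs
  -- every matching has exactly one partner of `h`
  have hone : ∀ M ∈ PM s, ((s.erase h).filter (fun h' => s(h, h') ∈ M)).card = 1 := by
    intro M hM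
    rw [mem_PM] at hM
    obtain ⟨e, ⟨heM, hhe⟩, hu⟩ := hM.2.2 h hs
    obtain ⟨x, hx⟩ := Sym2.mem_iff_exists.mp hhe
    rw [Finset.card_eq_one]
    refine ⟨x, ?_⟩
    ext y
    rw [Finset.mem_filter, Finset.mem_erase, Finset.mem_singleton]
    constructor
    · rintro ⟨_, hy⟩
      have := hu _ ⟨hy, Sym2.mem_mk_left _ _⟩
      rw [hx] at this
      exact Sym2.congr_right.mp this
    · rintro rfl
      refine ⟨⟨?_, ?_⟩, hx ▸ heM⟩
      · rintro rfl
        exact hM.1 e heM (by rw [hx]; simp)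
      · exact hM.2.1 e heM y (by rw [hx]; exact Sym2.mem_mk_right _ _)
  have h1 : ∑ M ∈ PM s, ∏ e ∈ M, φ e =
      ∑ M ∈ PM s, ∑ h' ∈ s.erase h, if s(h, h') ∈ M then ∏ e ∈ M, φ e else 0 := by
    apply Finset.sum_congr rfl
    intro M hM
    rw [← Finset.sum_filter, Finset.sum_const, hone M hM, one_smul]
  rw [h1, Finset.sum_comm]
  apply Finset.sum_congr rfl
  intro h' hh'
  rw [Finset.mem_erase] at hh'
  rw [← Finset.sum_filter, Finset.mul_sum]
  refine Finset.sum_bij' (fun M _ => M.erase s(h, h')) (fun M _ => insert s(h, h') M) ?_ ?_ ?_ ?_ ?_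
  · intro M hM
    rw [Finset.mem_filter, mem_PM] at hM
    rw [mem_PM]
    exact pm_erase hM.1 hM.2
  · intro M hM
    rw [mem_PM] at hM
    rw [Finset.mem_filter, mem_PM]
    exact ⟨(pm_insert hs hh'.2 (Ne.symm hh'.1) hM).1, Finset.mem_insert_self _ _⟩
  · intro M hM
    rw [Finset.mem_filter, mem_PM] at hM
    exact Finset.insert_erase hM.2
  · intro M hM
    rw [mem_PM] at hM
    exact Finset.erase_insert (pm_insert hs hh'.2 (Ne.symm hh'.1) hM).2
  · intro M hM
    rw [Finset.mem_filter, mem_PM] at hM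
    rw [Finset.mul_prod_erase M φ hM.2]

end Pool.Agent.Helper15.T4
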