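import Pool.Agent.Helper15.T4.Stmts

set_option autoImplicit false

/-!
T4, module TAU: traces of the powers of the transfer matrix.
-/

open Finset

namespace Pool.Agent.Helper15.T4

theorem TAU (hD : ST_DIAG) : ST_TAU := by
  obtain ⟨T, T', h1, h2, h3, _⟩ := hD
  intro k
  have hpow : ∀ n : ℕ, T' * B1 ^ n * T = (Matrix.diagonal ev) ^ n := by
    intro n
    induction n with
    | zero => simp [h2]
    | succ n ih =>
      rw [pow_succ (Matrix.diagonal ev), ← ih, ← h3]
      have : B1 ^ (n + 1) = B1 ^ n * (T * T') * B1 := by rw [h1, mul_one, pow_succ]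
      rw [this]
      simp only [Matrix.mul_assoc]
  have htr : (B1 ^ (k + 1)).trace = ((Matrix.diagonal ev) ^ (k + 1)).trace := by
    rw [← hpow, Matrix.trace_mul_comm, ← Matrix.mul_assoc, h1, Matrix.one_mul]
  rw [htr, Matrix.diagonal_pow, Matrix.trace_diagonal]
  have hsum : ∑ i : L1, (ev ^ (k + 1)) i = 1 + 3 * nu ^ (k + 1) + 3 * (starRingEnd ℂ nu) ^ (k + 1)
      + 5 * (1 / 4) ^ (k + 1) := by
    simp only [Pi.pow_apply]
    rw [Fintype.sum_prod_type]
    simp only [Fin.sum_univ_four, Fin.sum_univ_three, ev]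
    simp
    ring
  rw [hsum]
  have hre : ((nu ^ (k + 1)).re : ℂ) = (nu ^ (k + 1) + (starRingEnd ℂ nu) ^ (k + 1)) / 2 := by
    rw [← map_pow, Complex.re_eq_add_conj]
  unfold tau
  push_cast
  rw [hre]
  ring

end Pool.Agent.Helper15.T4
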