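import Pool.Agent.Helper11.T4.POS2
import Pool.Agent.Helper14.T4.IA
import Pool.Agent.Helper14.T4.MPK
import Pool.Agent.Helper14.T4.PLA
import Pool.Agent.Helper14.T4.POI
import Pool.Agent.Helper15.T4.GIR2
import Pool.Agent.Helper15.T4.PSI0
import Pool.Agent.Helper15.T4.REC
import Pool.Agent.Helper15.T4.TAU
import Pool.Agent.Helper2.T4.STRU
import Pool.Agent.Helper20.T4.PK1
import Pool.Agent.Helper20.T4.TY1
import Pool.Agent.Helper24.T4.CNE
import Pool.Agent.Helper24.T4.RU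
import Pool.Agent.Helper25.T4.DET1
import Pool.Agent.Helper35.T4.GSS
import Pool.Agent.Helper38.T4.GAUSS
import Pool.Agent.Helper4.T4.POS1
import Pool.Agent.Helper40.T4.ASYB
import Pool.Agent.Helper42.T4.SUMX
import Pool.Agent.Helper42.T4.XC
import Pool.Agent.Helper45.T4.SSC
import Pool.Agent.Helper47.T4.PK2
import Pool.Agent.Helper48.T4.MOM
import Pool.Agent.Helper5.T4.CARD
import Pool.Agent.Helper5.T4.CNT
import Pool.Agent.Helper5.T4.ROWA
import Pool.Agent.Helper51.T4.FIB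
import Pool.Agent.Helper51.T4.RAT
import Pool.Agent.Helper52.T4.LAPB
import Pool.Agent.Helper53.T4.BAN
import Pool.Agent.Helper57.T4.FM
import Pool.Agent.Helper59.T4.WICK
import Pool.Agent.Helper60.T4.GIR1
import Pool.Agent.Helper60.T4.PLC
import Pool.Agent.Helper61.T4.HOLD
import Pool.Agent.Helper67.T4.ASY
import Pool.Agent.Helper68.T4.POSG
import Pool.Agent.Helper7.T4.IT
import Pool.Agent.Helper71.T4.PSIC
import Pool.Agent.Helper77.T4.FIBG
import Pool.Agent.Helper78.T4.EXT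
import Pool.Agent.Helper79.T4.DET2
import Pool.Agent.Helper8.T4.SER
import Pool.Agent.Helper8.T4.STR
import Pool.Agent.Helper81.T4.UNI
import Pool.Agent.Helper84.T4.EXTM
import Pool.Agent.Helper88.T4.IBP
import Pool.Agent.Helper88.T4.LAP
import Pool.Agent.Helper90.T4.PK0
import Pool.Agent.Helper90.T4.ROWB
import Pool.Agent.Helper90.T4.S1A
import Pool.Agent.Helper91.T4.IB
import Pool.Agent.Helper94.T4.MAIN
import Pool.Agent.Helper94.T4.PLB
import Pool.Agent.Helper97.T4.DIAG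
import Pool.Agent.Helper97.T4.ERR
import Pool.Agent.Helper97.T4.PSIB

set_option autoImplicit false

/-!
MP_e0a484_co: assembly of the modules.
-/

namespace Pool.Agent.Helper15.T4.All

open Pool.Agent.Helper15.T4

theorem all_LAP : ST_LAP := Pool.Agent.Helper88.T4.LAP

theorem all_ASY : ST_ASY := Pool.Agent.Helper67.T4.ASY all_LAP

theorem all_LAPB : ST_LAPB := Pool.Agent.Helper52.T4.LAPB

theorem all_ASYB : ST_ASYB := Pool.Agent.Helper40.T4.ASYB all_LAPB

theorem all_BAN : ST_BAN := Pool.Agent.Helper53.T4.st_BAN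

theorem all_REC : ST_REC := Pool.Agent.Helper15.T4.REC

theorem all_CARD : ST_CARD := Pool.Agent.Helper5.T4.CARD all_REC

theorem all_CNE : ST_CNE := Pool.Agent.Helper24.T4.CNE

theorem all_CNT : ST_CNT := Pool.Agent.Helper5.T4.CNT

theorem all_DIAG : ST_DIAG := Pool.Agent.Helper97.T4.DIAG

theorem all_RU : ST_RU := Pool.Agent.Helper24.T4.RU

theorem all_DET1 : ST_DET1 := Pool.Agent.Helper25.T4.DET1 all_DIAG all_RU

theorem all_DET2 : ST_DET2 := Pool.Agent.Helper79.T4.st_DET2 all_DIAG all_RU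

theorem all_STR : ST_STR := Pool.Agent.Helper8.T4.STR

theorem all_STRU : ST_STRU := Pool.Agent.Helper15.T4.st_STRU all_STR

theorem all_EXT : ST_EXT := Pool.Agent.Helper78.T4.EXT all_STR all_STRU

theorem all_ERR : ST_ERR := Pool.Agent.Helper97.T4.ERR all_STR all_STRU all_CNT all_EXT all_CNE

theorem all_EXTM : ST_EXTM := Pool.Agent.Helper84.T4.EXTM

theorem all_FIB : ST_FIB := Pool.Agent.Helper51.T4.FIB all_STR

theorem all_FIBG : ST_FIBG := Pool.Agent.Helper77.T4.FIBG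

theorem all_FM : ST_FM := Pool.Agent.Helper57.T4.FM all_STR all_STRU all_CNT all_FIB all_ERR

theorem all_GAUSS : ST_GAUSS := Pool.Agent.Helper38.T4.st_GAUSS

theorem all_GIR1 : ST_GIR1 := Pool.Agent.Helper60.T4.GIR1

theorem all_GIR2 : ST_GIR2 := Pool.Agent.Helper15.T4.st_GIR2

theorem all_POS1 : ST_POS1 := Pool.Agent.Helper4.T4.POS1

theorem all_POS2 : ST_POS2 := Pool.Agent.Helper11.T4.POS2

theorem all_GSS : ST_GSS := Pool.Agent.Helper35.T4.GSS all_GAUSS all_DET1 all_DET2 all_POS1 all_POS2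

theorem all_HOLD : ST_HOLD := Pool.Agent.Helper61.T4.HOLD

theorem all_ROWA : ST_ROWA := Pool.Agent.Helper5.T4.ROWA

theorem all_IA : ST_IA := Pool.Agent.Helper14.T4.IA all_ROWA all_HOLD

theorem all_IT : ST_IT := Pool.Agent.Helper7.T4.IT.st_IT all_IA all_BAN

theorem all_ROWB : ST_ROWB := Pool.Agent.Helper90.T4.ROWB

theorem all_IB : ST_IB := Pool.Agent.Helper91.T4.IB all_IT all_ROWB all_HOLD all_IA

theorem all_IBP : ST_IBP := Pool.Agent.Helper88.T4.IBP

theorem all_MOM : ST_MOM := Pool.Agent.Helper48.T4.MOM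

theorem all_POI : ST_POI := Pool.Agent.Helper14.T4.POI all_FM all_MOM

theorem all_UNI : ST_UNI := Pool.Agent.Helper15.T4.st_UNI all_CARD all_EXTM all_STRU

theorem all_WICK : ST_WICK := Pool.Agent.Helper59.T4.WICK all_REC all_IBP

theorem all_SUMX : ST_SUMX := Pool.Agent.Helper42.T4.SUMX all_WICK all_EXTM

theorem all_PSIC : ST_PSIC := Pool.Agent.Helper71.T4.PSIC all_STR all_STRU

theorem all_XC : ST_XC := Pool.Agent.Helper42.T4.XC

theorem all_MPK : ST_MPK := Pool.Agent.Helper14.T4.MPK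

theorem all_PK1 : ST_PK1 := Pool.Agent.Helper20.T4.PK1 all_MPK all_IA all_POS1

theorem all_PSI0 : ST_PSI0 := Pool.Agent.Helper15.T4.PSI0

theorem all_S1A : ST_S1A := Pool.Agent.Helper90.T4.S1A all_SUMX all_PSI0 all_XC all_ASY all_PK1 all_GSS

theorem all_TAU : ST_TAU := Pool.Agent.Helper15.T4.TAU all_DIAG

theorem all_PLC : ST_PLC := Pool.Agent.Helper60.T4.PLC all_SUMX all_PSIC all_XC all_STRU all_ASY all_PK1 all_S1A all_TAU all_RU

theorem all_PSIB : ST_PSIB := Pool.Agent.Helper97.T4.PSIB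

theorem all_PLB : ST_PLB := Pool.Agent.Helper94.T4.PLB all_SUMX all_PSIB all_XC all_ASYB all_PK1 all_S1A

theorem all_PLA : ST_PLA := Pool.Agent.Helper14.T4.PLA all_PLC all_PLB all_S1A

theorem all_PK0 : ST_PK0 := Pool.Agent.Helper90.T4.PK0 all_MPK

theorem all_PK2 : ST_PK2 := Pool.Agent.Helper47.T4.PK2 all_MPK all_IB all_POS2

theorem all_RAT : ST_RAT := Pool.Agent.Helper51.T4.RAT all_SUMX all_PSI0 all_XC all_ASY all_PK0 all_PK1 all_PK2 all_GSS

theorem all_SER : ST_SER := Pool.Agent.Helper8.T4.SER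

theorem all_TY1 : ST_TY1 := Pool.Agent.Helper20.T4.TY1

theorem all_POSG : ST_POSG := Pool.Agent.Helper68.T4.POSG all_UNI all_POI all_ERR

theorem all_SSC : ST_SSC := Pool.Agent.Helper45.T4.SSC

theorem all_MAIN : ST_MAIN := Pool.Agent.Helper94.T4.MAIN all_CARD all_POI all_UNI all_PLA all_RAT all_SER all_S1A all_FIBG all_GIR1 all_GIR2 all_TY1 all_POSG all_SSC

end Pool.Agent.Helper15.T4.All
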