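import Mathlib

set_option autoImplicit false

/-!
MP_e0a484_co (total colourings of cubic graphs): definitions.

Target: for every `g ≥ 3`, almost all labelled cubic graphs on `2 N` vertices all of whose cycles have
length at least `g` are Type 1 (have a total colouring with 4 colours).
-/

open Finset MeasureTheory Filter Topology

namespace Pool.Agent.Helper15.T4

/-! ### Pairings -/

/-- `M` is a set of pairwise disjoint pairs (no pair is degenerate) that covers exactly the set `s`. -/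
def IsPM {H : Type} (s : Finset H) (M : Finset (Sym2 H)) : Prop :=
  (∀ e ∈ M, ¬ e.IsDiag) ∧ (∀ e ∈ M, ∀ h ∈ e, h ∈ s) ∧ ∀ h ∈ s, ∃! e : Sym2 H, e ∈ M ∧ h ∈ e

open Classical in
/-- The perfect matchings of the finite set `s`. -/
noncomputable def PM {H : Type} [Fintype H] (s : Finset H) : Finset (Finset (Sym2 H)) :=
  univ.filter (fun M => IsPM s M)

open Classical in
/-- The elements covered by a set of pairs. -/
noncomputable def cov {H : Type} [Fintype H] (F : Finset (Sym2 H)) : Finset H :=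
  univ.filter (fun h => ∃ e ∈ F, h ∈ e)

/-- A partial matching: pairwise disjoint, non degenerate pairs. -/
def IsMat {H : Type} [Fintype H] (F : Finset (Sym2 H)) : Prop := IsPM (cov F) F

/-- Half-edges of the vertices `Fin n` of a cubic graph. -/
abbrev HE (n : ℕ) : Type := Fin n × Fin 3

open Classical in
/-- The vertices touched by a set of pairs of half-edges. -/
noncomputable def tv {n : ℕ} (F : Finset (Sym2 (HE n))) : Finset (Fin n) := (cov F).image Prod.fst

open Classical in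
/-- Total weight of the perfect matchings that contain `F`. -/
noncomputable def mass {n : ℕ} (W : Finset (Sym2 (HE n)) → ℝ) (F : Finset (Sym2 (HE n))) : ℝ :=
  ∑ M ∈ (PM (univ : Finset (HE n))).filter (fun M => F ⊆ M), W M

/-! ### Cycles -/

/-- Data of a rooted and oriented cycle of length `k + 1`: vertices `(c i).1`, the cycle arrives at the
vertex `(c i).1` through the half-edge `(c i).2.1` and leaves through the half-edge `(c i).2.2`. -/
abbrev CycD (n k : ℕ) : Type := Fin (k + 1) → Fin n × Fin 3 × Fin 3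

/-- The vertices are distinct and the cycle arrives and leaves through different half-edges. -/
def Valid {n k : ℕ} (c : CycD n k) : Prop :=
  Function.Injective (fun i => (c i).1) ∧ ∀ i, (c i).2.1 ≠ (c i).2.2

open Classical in
/-- The pairs of the cycle. -/
noncomputable def E {n k : ℕ} (c : CycD n k) : Finset (Sym2 (HE n)) :=
  univ.image (fun i => s(((c i).1, (c i).2.2), ((c (i + 1)).1, (c (i + 1)).2.1)))

open Classical in
/-- The vertices of the cycle. -/
noncomputable def vs {n k : ℕ} (c : CycD n k) : Finset (Fin n) := univ.image (fun i => (c i).1)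

open Classical in
/-- The cycles of length `k + 1` of the complete structure, as sets of pairs. -/
noncomputable def Cyc (n k : ℕ) : Finset (Finset (Sym2 (HE n))) :=
  (univ.filter (fun c : CycD n k => Valid c)).image E

open Classical in
/-- Number of the cycles of length `k + 1` of `M` that meet no other cycle of `M` of length at most
`m`. -/
noncomputable def Zs {n : ℕ} (m k : ℕ) (M : Finset (Sym2 (HE n))) : ℕ :=
  ((Cyc n k).filter (fun C => C ⊆ M ∧ ∀ k' < m, ∀ C' ∈ Cyc n k', C' ⊆ M → C' ≠ C →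
    Disjoint (tv C) (tv C'))).card

open Classical in
/-- The union of the pairs of a family of cycles. -/
noncomputable def EU {n : ℕ} {I : Type} [Fintype I] {κ : I → ℕ} (c : (i : I) → CycD n (κ i)) :
    Finset (Sym2 (HE n)) := univ.biUnion (fun i => E (c i))

/-- A family of valid cycles with pairwise disjoint vertex sets. -/
def DisjFam {n : ℕ} {I : Type} {κ : I → ℕ} (c : (i : I) → CycD n (κ i)) : Prop :=
  (∀ i, Valid (c i)) ∧ ∀ i j, i ≠ j → Disjoint (vs (c i)) (vs (c j))

/-- A sequence of probability distributions on the pairings of `2 N` vertices for which the short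
cycles are asymptotically independent Poisson variables with parameters `2 ^ k τ (k-1) / (2 k)`. -/
structure Good (W : (N : ℕ) → Finset (Sym2 (HE (2 * N))) → ℝ) (τ : ℕ → ℝ) : Prop where
  nonneg : ∀ N M, 0 ≤ W N M
  one : ∀ᶠ N in atTop, ∑ M ∈ PM (univ : Finset (HE (2 * N))), W N M = 1
  cyc : ∀ (I : Type) [Fintype I] [DecidableEq I] (κ : I → ℕ), ∃ ρ : ℕ → ℝ,
    Tendsto (fun N : ℕ => ρ N * (2 * (N : ℝ)) ^ (∑ i, (κ i + 1))) atTop
      (𝓝 (∏ i, τ (κ i) / 3 ^ (κ i + 1))) ∧
    ∀ᶠ N in atTop, ∀ c : (i : I) → CycD (2 * N) (κ i), DisjFam c → mass (W N) (EU c) = ρ N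
  bd : ∀ f : ℕ, ∃ C : ℝ, ∀ᶠ N in atTop, ∀ F : Finset (Sym2 (HE (2 * N))), IsMat F → F.card = f →
    mass (W N) F ≤ C / (2 * (N : ℝ)) ^ f

/-- Poisson weight. -/
noncomputable def po (a : ℝ) (z : ℕ) : ℝ := Real.exp (-a) * a ^ z / (z.factorial : ℝ)

/-- `lam k` is the Poisson parameter of the cycles of length `k + 1`. -/
noncomputable def lam (k : ℕ) : ℝ := 2 ^ (k + 1) / (2 * ((k : ℝ) + 1))

/-! ### Label models and Gaussian integrals -/

/-- Squared Euclidean norm. -/
def nsq {ι : Type} [Fintype ι] (x : ι → ℝ) : ℝ := ∑ i, x i ^ 2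

/-- `pairC ℓ {h, h'} = ∑ i, ℓ h i * ℓ h' i`. -/
noncomputable def pairC {H ι : Type} [Fintype ι] (ℓ : H → ι → ℂ) : Sym2 H → ℂ :=
  Sym2.lift ⟨fun h h' => ∑ i, ℓ h i * ℓ h' i, fun h h' => by simp only [mul_comm]⟩

/-- Expectation of `φ` at a standard Gaussian vector. -/
noncomputable def GI {ι : Type} [Fintype ι] (φ : (ι → ℝ) → ℂ) : ℂ :=
  (((2 * Real.pi) ^ (-(Fintype.card ι : ℝ) / 2) : ℝ) : ℂ) *
    ∫ x : ι → ℝ, φ x * ((Real.exp (-(nsq x) / 2) : ℝ) : ℂ)

/-- A label model: weights of the triples of labels around a vertex, and a matrix `S` such that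
`S Sᵀ` is the compatibility matrix of the labels of the two halves of an edge. -/
structure Mdl (L ι : Type) where
  w : L → L → L → ℝ
  S : L → ι → ℂ

section Mdl

variable {L ι : Type} [Fintype L] [Fintype ι] (m : Mdl L ι)

/-- Compatibility matrix. -/
noncomputable def Mdl.AM : Matrix L L ℂ := fun a b => ∑ i, m.S a i * m.S b i

/-- The linear form of a label. -/
noncomputable def Mdl.l (a : L) (x : ι → ℝ) : ℂ := ∑ i, m.S a i * (x i : ℂ)

/-- The trilinear form. -/
noncomputable def Mdl.T (x y z : ι → ℝ) : ℂ :=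
  ∑ a, ∑ b, ∑ c, (m.w a b c : ℂ) * m.l a x * m.l b y * m.l c z

/-- The vertex polynomial. -/
noncomputable def Mdl.P (x : ι → ℝ) : ℂ := m.T x x x

/-- The vertex matrix with one leg closed by `x`. -/
noncomputable def Mdl.R (x : ι → ℝ) : Matrix L L ℂ := fun a b => ∑ c, (m.w a b c : ℂ) * m.l c x

/-- The total weight of the labelings of the pairing `M`. -/
noncomputable def Mdl.X {n : ℕ} (M : Finset (Sym2 (HE n))) : ℂ := by
  classical
  exact ∑ σ : HE n → L, (∏ v, (m.w (σ (v, 0)) (σ (v, 1)) (σ (v, 2)) : ℂ)) *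
    ∏ e ∈ M, pairC m.S (e.map σ)

/-- The integrand for the pairings containing `F`. -/
noncomputable def Mdl.Psi {n : ℕ} (F : Finset (Sym2 (HE n))) (x : ι → ℝ) : ℂ := by
  classical
  exact ∑ σ : HE n → L, (∏ v, (m.w (σ (v, 0)) (σ (v, 1)) (σ (v, 2)) : ℂ)) *
    (∏ e ∈ F, pairC m.S (e.map σ)) * ∏ h ∈ (cov F)ᶜ, m.l (σ h) x

/-- The weights are symmetric. -/
def Mdl.Symm : Prop := ∀ a b c, m.w a b c = m.w b a c ∧ m.w a b c = m.w a c b

end Mdl

/-- The hypotheses of the Laplace method: `P` has its unique peak on the unit sphere at `± u`. -/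
structure Peak {ι : Type} [Fintype ι] (P : (ι → ℝ) → ℂ) (u : ι → ℝ) (q : ℝ) (Q : (ι → ℝ) → ℂ) :
    Prop where
  cont : Continuous P
  hom : ∀ (s : ℝ) (x : ι → ℝ), P (s • x) = (s : ℂ) ^ 3 * P x
  u1 : nsq u = 1
  q0 : 0 < q
  Pu : P u = (q : ℂ)
  le : ∀ x, ‖P x‖ ^ 2 ≤ q ^ 2 * nsq x ^ 3
  eq : ∀ x, ‖P x‖ ^ 2 = q ^ 2 * nsq x ^ 3 → ∃ s : ℝ, x = s • u
  contQ : Continuous Q
  homQ : ∀ (s : ℝ) (x : ι → ℝ), Q (s • x) = (s : ℂ) ^ 2 * Q x
  posQ : ∃ c : ℝ, 0 < c ∧ ∀ x, c * nsq x ≤ (Q x).re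
  exp : ∃ C : ℝ, ∀ h, nsq h ≤ 1 →
    ‖P (u + h) * ((Real.exp (-(3 / 2) * (nsq (u + h) - 1)) : ℝ) : ℂ) / (q : ℂ) - (1 - Q h / 2)‖ ≤
      C * Real.sqrt (nsq h) ^ 3

/-- The quadratic form of the Hessian. -/
noncomputable def QT {ι : Type} [Fintype ι] (T : (ι → ℝ) → (ι → ℝ) → (ι → ℝ) → ℂ) (u : ι → ℝ) (q : ℝ)
    (h : ι → ℝ) : ℂ :=
  3 * (nsq h : ℂ) - 6 * T u h h / (q : ℂ) + 9 * ((∑ i, u i * h i : ℝ) : ℂ) ^ 2

/-! ### The three models -/

/-- The trivial model (all pairings get weight one). -/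
noncomputable def m0 : Mdl Unit Unit := ⟨fun _ _ _ => 1, fun _ _ => 1⟩

/-- Labels of half-edges: `(d, j)` is the edge colour `d` together with the vertex colour
`d.succAbove j`. -/
abbrev L1 : Type := Fin 4 × Fin 3

/-- Vertex colour of a label. -/
def vc (a : L1) : Fin 4 := a.1.succAbove a.2

open Classical in
/-- The three labels at a vertex: distinct edge colours, the same vertex colour. -/
noncomputable def w1 (a b c : L1) : ℝ :=
  if (a.1 ≠ b.1 ∧ a.1 ≠ c.1 ∧ b.1 ≠ c.1 ∧ vc a = vc b ∧ vc a = vc c) then 1 else 0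

/-- `S = √2 P + i (1 - P)` with the projection `P` onto the functions that only depend on the edge
colour. -/
noncomputable def S1 (a i : L1) : ℂ :=
  if a.1 = i.1 then ((Real.sqrt 2 : ℂ) - Complex.I) / 3 + (if a.2 = i.2 then Complex.I else 0) else 0

/-- The model of the 4-total-colourings. -/
noncomputable def m1 : Mdl L1 L1 := ⟨w1, S1⟩

/-- The product of a model with itself. -/
noncomputable def Mdl.sq {L ι : Type} (m : Mdl L ι) : Mdl (L × L) (ι × ι) :=
  ⟨fun a b c => m.w a.1 b.1 c.1 * m.w a.2 b.2 c.2, fun a i => m.S a.1 i.1 * m.S a.2 i.2⟩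

/-- The model of the pairs of 4-total-colourings. -/
noncomputable def m2 : Mdl (L1 × L1) (L1 × L1) := m1.sq

/-- The peak of `m1`. -/
noncomputable def u1 : L1 → ℝ := fun _ => 1 / Real.sqrt 12

/-- The peak of `m2`. -/
noncomputable def u2 : L1 × L1 → ℝ := fun _ => 1 / 12

/-- The maximum of `m1`. -/
noncomputable def q1 : ℝ := Real.sqrt (8 / 3)

open Classical in
/-- The compatibility of the labels of the two halves of an edge: same edge colour, different vertex
colours. -/
def Cmp : Sym2 L1 → Prop :=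
  Sym2.lift ⟨fun a b => a.1 = b.1 ∧ a.2 ≠ b.2, fun a b => by
    apply propext; constructor <;> rintro ⟨h1, h2⟩ <;> exact ⟨h1.symm, h2.symm⟩⟩

open Classical in
/-- The number of total colourings with 4 colours of a pairing. -/
noncomputable def Xc {n : ℕ} (M : Finset (Sym2 (HE n))) : ℕ :=
  (univ.filter (fun σ : HE n → L1 => (∀ v, w1 (σ (v, 0)) (σ (v, 1)) (σ (v, 2)) = 1) ∧
    ∀ e ∈ M, Cmp (e.map σ))).card

/-- The eigenvalue `(-3 + i √7) / 8` of the transfer matrix. -/
noncomputable def nu : ℂ := (-3 + Complex.I * (Real.sqrt 7 : ℂ)) / 8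

/-- `tau k` is the trace of the `(k + 1)`-st power of the transfer matrix. -/
noncomputable def tau (k : ℕ) : ℝ := 1 + 5 * (1 / 4) ^ (k + 1) + 6 * (nu ^ (k + 1)).re

/-- The constant of the second moment. -/
noncomputable def Pi2 : ℝ := (7 / 8) ^ 25 * (23 / 16) ^ 30 * (9 / 8) ^ 9 * (1 / 2) ^ 18

/-- The transfer matrix. -/
noncomputable def B1 : Matrix L1 L1 ℂ := fun a b =>
  if b.1 ≠ a.1 ∧ b.1 ≠ vc a ∧ vc b ≠ vc a then 1 / 4 else 0

/-! ### Graphs -/

/-- The simple graph of a pairing. -/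
def Gr {n : ℕ} (M : Finset (Sym2 (HE n))) : SimpleGraph (Fin n) where
  Adj v w := v ≠ w ∧ ∃ a b, s((v, a), (w, b)) ∈ M
  symm := ⟨fun v w h => ⟨h.1.symm, by obtain ⟨a, b, hab⟩ := h.2; exact ⟨b, a, by rwa [Sym2.eq_swap]⟩⟩⟩
  loopless := ⟨fun v h => h.1 rfl⟩

/-- Total colouring with 4 colours. -/
def Type1 {V : Type} (G : SimpleGraph V) : Prop :=
  ∃ (c : V → Fin 4) (d : V → V → Fin 4),
    (∀ u v : V, G.Adj u v → d u v = d v u) ∧
    (∀ u v : V, G.Adj u v → c u ≠ c v) ∧
    (∀ u v w : V, G.Adj u v → G.Adj u w → v ≠ w → d u v ≠ d u w) ∧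
    (∀ u v : V, G.Adj u v → d u v ≠ c u)

/-- Cubic, and all cycles have length at least `g`. -/
def Cubic {V : Type} [Fintype V] (g : ℕ) (G : SimpleGraph V) : Prop :=
  (∀ v : V, Set.ncard {w | G.Adj v w} = 3) ∧ ∀ (u : V) (p : G.Walk u u), p.IsCycle → g ≤ p.length

end Pool.Agent.Helper15.T4
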